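import Pool.Agent.H.MP_1b39b5.D
import Pool.Agent.H.MP_35c8d5.A

set_option autoImplicit false
open Set Filter Topology

namespace Pool.Agent.H.MP_aafae6

variable {X : Type} [NormedAddCommGroup X] [NormedSpace ℝ X]

theorem gat {C : Set (X →L[ℝ] ℝ)} (c0 : 0 ∈ C) (c1 : ∀ f ∈ C, ‖f‖ ≤ 1) (x : X)
    (H : ∀ h, ∀ ε > 0, ∃ η > 0, ∀ u ∈ C, ∀ v ∈ C, sSup {r | ∃ f ∈ C, f x = r} - η < u x →
      sSup {r | ∃ f ∈ C, f x = r} - η < v x → |u h - v h| < ε) :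
    ∃ g : X →L[ℝ] ℝ, ∀ h, HasDerivAt (fun t : ℝ => sSup {r | ∃ f ∈ C, f (x + t • h) = r})
      (g h) 0 := by
  have b : ∀ f ∈ C, ∀ y, |f y| ≤ ‖y‖ := fun f hf y =>
    (f.le_opNorm y).trans (mul_le_of_le_one_left (norm_nonneg _) (c1 f hf))
  have l : ∀ f ∈ C, ∀ y, f y ≤ sSup {r | ∃ f ∈ C, f y = r} := fun f hf y =>
    le_csSup ⟨‖y‖, by rintro _ ⟨f, hf, rfl⟩; exact (le_abs_self _).trans (b f hf y)⟩ ⟨f, hf, rfl⟩
  obtain ⟨r, hr⟩ : ∃ r, r = sSup {r | ∃ f ∈ C, f x = r} := ⟨_, rfl⟩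
  rw [← hr] at H
  have e : ∀ η > 0, ∃ f ∈ C, r - η < f x := fun η h0 => by
    obtain ⟨_, ⟨f, hf, rfl⟩, k⟩ := exists_lt_of_lt_csSup (s := {r | ∃ f ∈ C, f x = r})
      ⟨_, 0, c0, rfl⟩ ((sub_lt_self r h0).trans_eq hr)
    exact ⟨f, hf, k⟩
  choose f f1 f2 using fun n : ℕ => e _ (Nat.one_div_pos_of_nat (n := n))
  obtain ⟨g, g1, g2⟩ := MP_35c8d5.ulim (hyperfilter ℕ) f zero_le_one
    (.of_forall fun n => c1 _ (f1 n))
  refine ⟨g, fun h => hasDerivAt_iff_isLittleO_nhds_zero.2 (Asymptotics.isLittleO_iff.2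
    fun ε hε => ?_)⟩
  obtain ⟨η, η0, k⟩ := H h ε hε
  have k : ∀ u ∈ C, r - η < u x → ∀ t : ℝ, |t * u h - t * g h| ≤ ε * |t| := fun u hu a t => by
    rw [← mul_sub, abs_mul, mul_comm]
    gcongr
    refine le_of_tendsto ((g2 h).const_sub _).abs (Nat.hyperfilter_le_atTop
      ((tendsto_one_div_add_atTop_nhds_zero_nat.eventually_lt_const η0).mono fun n hn =>
        (k u hu _ (f1 n) a (lt_trans (by linarith) (f2 n))).le))
  have g3 := (g.le_opNorm h).trans (mul_le_of_le_one_left (norm_nonneg _) g1)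
  filter_upwards [Metric.ball_mem_nhds 0 (show 0 < η / (2 * ‖h‖ + 1) by positivity)] with t ht
  rw [mem_ball_zero_iff, lt_div_iff₀ (by positivity), Real.norm_eq_abs] at ht
  simp only [zero_add, zero_smul, add_zero, ← hr, smul_eq_mul, Real.norm_eq_abs] at g3 ⊢
  refine abs_le.2 ⟨?_, ?_⟩
  · refine le_of_forall_pos_le_add fun δ δ0 => ?_
    obtain ⟨u, u1, u2⟩ := e (min η δ) (lt_min η0 δ0)
    have := l u u1 (x + t • h)
    rw [map_add, map_smul, smul_eq_mul] at this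
    linarith [(abs_le.1 (k u u1 (by linarith [min_le_left η δ]) t)).1, min_le_right η δ]
  · rw [sub_sub, sub_le_iff_le_add]
    refine csSup_le ⟨_, 0, c0, rfl⟩ ?_
    rintro _ ⟨u, u1, rfl⟩
    rw [map_add, map_smul, smul_eq_mul]
    rcases lt_or_ge (r - η) (u x) with a | a
    · linarith [(abs_le.1 (k u u1 a t)).2, hr ▸ l u u1 x]
    · have a1 : |t * u h| ≤ |t| * ‖h‖ := by rw [abs_mul]; gcongr; exact b u u1 h
      have a2 : |t * g h| ≤ |t| * ‖h‖ := by rw [abs_mul]; gcongr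
      linarith [le_abs_self (t * u h), neg_abs_le (t * g h), abs_nonneg t,
        mul_nonneg hε.le (abs_nonneg t)]

theorem num {a b c d A B σ ε : ℝ} (h0 : 0 < ε) (h1 : A + a ^ 2 ≤ 1) (h2 : B + b ^ 2 ≤ 1)
    (h3 : B + c ^ 2 ≤ 1) (h4 : d ≤ (A + B) / 2) (h5 : 1 - σ < d + ((a + b) / 2) ^ 2)
    (h6 : σ ≤ (ε / 4) ^ 2) : |c| - ε < |a| := by
  have e1 : (a - b) ^ 2 < (ε / 2) ^ 2 := by nlinarith
  have e2 : c ^ 2 < b ^ 2 + (ε / 2) ^ 2 := by nlinarith [sq_nonneg (a - b), sq_pos_of_pos h0]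
  have e3 := abs_lt_of_sq_lt_sq e1 (half_pos h0).le
  have e4 : |c| < |b| + ε / 2 := abs_lt_of_sq_lt_sq (by
    nlinarith [sq_abs b, mul_nonneg (abs_nonneg b) h0.le]) (by positivity)
  linarith [abs_sub_abs_le_abs_sub b a, abs_sub_comm a b]

theorem env (G : ℕ → Set X) (g0 : Metric.closedBall 0 1 ⊆ G 0)
    (g1 : ∀ k, ∀ z ∈ G k, ‖z‖ ≤ (1 / 2) ^ k) (ne : ∀ k, (G k).Nonempty)
    (H : ∀ S : ℝ → Set (X →L[ℝ] ℝ), (∀ η, Convex ℝ (S η)) → Monotone S →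
      (∀ η, ∀ f ∈ S η, ‖f‖ ≤ 1) → (∀ k, ∀ ε > 0, ∃ η > 0, ∀ u ∈ S η, ∀ v ∈ S η, ∀ z ∈ G k,
        ∃ z' ∈ G k, |v z| - ε < |u z'|) →
      ∀ h, ∀ ε > 0, ∃ η > 0, ∀ u ∈ S η, ∀ v ∈ S η, |u h - v h| < ε) :
    ∃ N : X → ℝ, (∀ x y : X, N (x + y) ≤ N x + N y) ∧ (∀ (r : ℝ) (x : X), N (r • x) = |r| * N x) ∧
      (∃ a b : ℝ, 0 < a ∧ 0 < b ∧ ∀ x : X, a * ‖x‖ ≤ N x ∧ N x ≤ b * ‖x‖) ∧
      ∀ Y : Submodule ℝ (X →L[ℝ] ℝ), (∃ c : ℝ, 0 < c ∧ ∀ x : X,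
          c * N x ≤ sSup {r : ℝ | ∃ f ∈ Y, (∀ z : X, f z ≤ N z) ∧ f x = r}) →
        ∀ x : X, x ≠ 0 → ∃ g : X →L[ℝ] ℝ, ∀ h : X, HasDerivAt
          (fun t : ℝ => sSup {r : ℝ | ∃ f ∈ Y, (∀ z : X, f z ≤ N z) ∧ f (x + t • h) = r})
            (g h) 0 := by
  classical
  obtain ⟨D, hD⟩ : ∃ D : Set (X →L[ℝ] ℝ), ∀ f, f ∈ D ↔ ∀ z : ℕ → X, (∀ k, z k ∈ G k) → ∀ n,
    ∑ k ∈ Finset.range n, f (z k) ^ 2 ≤ 1 := ⟨{f | _}, fun _ => Iff.rfl⟩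
  choose z0 hz using ne
  have d0 : ∀ f : X →L[ℝ] ℝ, ‖f‖ ≤ 1 / 2 → f ∈ D := fun f hf => (hD f).2 fun z a n => by
    refine (Finset.sum_le_sum (g := fun k => 1 / 4 * (1 / 2) ^ k) fun k _ => ?_).trans ?_
    · have := (f.le_opNorm (z k)).trans (mul_le_mul hf (g1 k _ (a k)) (norm_nonneg _) (by norm_num))
      have p1 : (1 / 2 : ℝ) ^ k ≤ 1 := pow_le_one₀ (by norm_num) (by norm_num)
      have p0 : 0 < (1 / 2 : ℝ) ^ k := by positivity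
      rw [← sq_abs]
      refine (pow_le_pow_left₀ (abs_nonneg _) this 2).trans ?_
      nlinarith
    · rw [← Finset.mul_sum]
      linarith [sum_geometric_two_le n]
  have d1 : ∀ f ∈ D, ‖f‖ ≤ 1 := fun f hf => f.opNorm_le_of_unit_norm zero_le_one fun x hx => by
    have := (hD f).1 hf (Function.update z0 0 x) (fun k => by
      rcases eq_or_ne k 0 with rfl | e
      · simpa using g0 (mem_closedBall_zero_iff.2 hx.le)
      · simpa [e] using hz k) 1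
    simpa using this
  have d2 : ∀ f ∈ D, ∀ x, |f x| ≤ ‖x‖ := fun f hf y =>
    (f.le_opNorm y).trans (mul_le_of_le_one_left (norm_nonneg _) (d1 f hf))
  have : Nonempty D := ⟨⟨0, d0 0 (by simp)⟩⟩
  obtain ⟨N, hN⟩ : ∃ N : X → ℝ, ∀ x, N x = ⨆ f : D, |f.1 x| := ⟨_, fun _ => rfl⟩
  have n1 : ∀ f ∈ D, ∀ x, |f x| ≤ N x := fun f hf x => hN x ▸ le_ciSup
    (f := fun f : D => |f.1 x|) ⟨‖x‖, forall_mem_range.2 fun f => d2 _ f.2 x⟩ ⟨f, hf⟩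
  have n2 : ∀ x c, (∀ f ∈ D, |f x| ≤ c) → N x ≤ c := fun x c h => hN x ▸ ciSup_le fun f => h _ f.2
  have n3 : ∀ f : X →L[ℝ] ℝ, (∀ z, f z ≤ N z) ↔ f ∈ D := fun f =>
    ⟨fun h => (hD f).2 fun z a n => by
      have := (h (∑ k ∈ Finset.range n, f (z k) • z k)).trans (n2 _ √(∑ k ∈ Finset.range n,
        f (z k) ^ 2) fun g hg => Real.abs_le_sqrt (by
          simp only [map_sum, map_smul, smul_eq_mul]
          exact (Finset.sum_mul_sq_le_sq_mul_sq _ _ _).trans (mul_le_of_le_one_right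
            (by positivity) ((hD g).1 hg z a n))))
      simp only [map_sum, map_smul, smul_eq_mul, ← sq] at this
      nlinarith [Real.sq_sqrt (show 0 ≤ ∑ k ∈ Finset.range n, f (z k) ^ 2 by positivity),
        Real.sqrt_nonneg (∑ k ∈ Finset.range n, f (z k) ^ 2)],
    fun h z => (le_abs_self _).trans (n1 f h z)⟩
  have na : ∀ x, 1 / 2 * ‖x‖ ≤ N x := fun x => by
    obtain ⟨g, a1, a2⟩ := exists_dual_vector'' ℝ x
    have := n1 ((1 / 2 : ℝ) • g) (d0 _ (by rw [norm_smul]; norm_num; linarith)) x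
    rw [_root_.smul_apply, a2] at this
    exact (le_abs_self _).trans this
  refine ⟨N, fun x y => n2 _ _ fun f hf => ?_, fun r x => ?_, ⟨1 / 2, 1, by norm_num, one_pos,
    fun x => ⟨na x, n2 _ _ fun f hf => by simpa using d2 f hf x⟩⟩, fun Y ⟨c, c0, hc⟩ x hx => ?_⟩
  · rw [map_add]
    exact (abs_add_le _ _).trans (add_le_add (n1 f hf x) (n1 f hf y))
  · simp only [hN, map_smul, smul_eq_mul, abs_mul]
    exact (Real.mul_iSup_of_nonneg (abs_nonneg r) _).symm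
  simp only [n3, ← and_assoc] at hc ⊢
  refine gat (C := {f | f ∈ Y ∧ f ∈ D}) ⟨zero_mem _, d0 0 (by simp)⟩ (fun f hf => d1 f hf.2) x ?_
  have r0 := (mul_pos c0 ((mul_pos one_half_pos (norm_pos_iff.2 hx)).trans_le (na x))).trans_le (hc x)
  have l : ∀ f ∈ Y, f ∈ D → f x ≤ sSup {r | ∃ f, (f ∈ Y ∧ f ∈ D) ∧ f x = r} := fun f a hf =>
    le_csSup ⟨‖x‖, by rintro _ ⟨f, hf, rfl⟩; exact (le_abs_self _).trans (d2 f hf.2 x)⟩
      ⟨f, ⟨a, hf⟩, rfl⟩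
  simp only [mem_ofPred_eq]
  generalize sSup {r | ∃ f, (f ∈ Y ∧ f ∈ D) ∧ f x = r} = r at r0 l
  intro h ε hε
  refine (H (fun η => {f | (f ∈ Y ∧ f ∈ D) ∧ r - η < f x}) (fun η u hu v hv a b a0 b0 ab =>
    ⟨⟨Y.convex hu.1.1 hv.1.1 a0 b0 ab, (n3 _).1 fun z => ?_⟩, ?_⟩)
    (fun a b e f hf => ⟨hf.1, lt_of_le_of_lt (by linarith) hf.2⟩) (fun η f hf => d1 f hf.1.2)
    (fun k ε hε => ?_) h ε hε).imp fun η k => ⟨k.1, fun u a v b c d => k.2 u ⟨a, c⟩ v ⟨b, d⟩⟩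
  · exact convex_Iic (N z) ((n3 _).2 hu.1.2 z) ((n3 _).2 hv.1.2 z) a0 b0 ab
  · exact convex_Ioi (r - η) hu.2 hv.2 a0 b0 ab
  obtain ⟨σ, s0, s1, s2⟩ : ∃ σ > 0, σ ≤ 1 / 2 ∧ 2 * σ ≤ (ε / 4) ^ 2 :=
    ⟨min (1 / 2) ((ε / 4) ^ 2 / 2), by positivity, min_le_left _ _, by
      linarith [min_le_right (1 / 2) ((ε / 4) ^ 2 / 2)]⟩
  refine ⟨σ * r, by positivity, fun u hu v hv z a => ?_⟩
  have m : (1 - σ)⁻¹ • ((1 / 2 : ℝ) • (u + v)) ∉ D := fun e => by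
    have := l _ (Y.smul_mem _ (Y.smul_mem _ (add_mem hu.1.1 hv.1.1))) e
    simp only [_root_.smul_apply, _root_.add_apply, smul_eq_mul] at this
    rw [inv_mul_le_iff₀ (by linarith)] at this
    linarith [hu.2, hv.2]
  rw [hD] at m
  push Not at m
  obtain ⟨w, w1, n, w2⟩ := m
  have w3 := w2.trans_le (Finset.sum_le_sum_of_subset_of_nonneg
    (Finset.range_mono (le_max_left n (k + 1))) fun _ _ _ => sq_nonneg _)
  have kn : k ∈ Finset.range (max n (k + 1)) := by simp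
  have u1 := (hD u).1 hu.1.2 w w1 (max n (k + 1))
  have v1 := (hD v).1 hv.1.2 w w1 (max n (k + 1))
  have v2 := (hD v).1 hv.1.2 (Function.update w k z) (fun j => by
    rcases eq_or_ne j k with rfl | e
    · simpa using a
    · simpa [e] using w1 j) (max n (k + 1))
  simp only [_root_.smul_apply, _root_.add_apply, smul_eq_mul, mul_pow (1 - σ)⁻¹,
    ← Finset.mul_sum, inv_pow] at w3
  rw [lt_inv_mul_iff₀ (pow_pos (by linarith) 2)] at w3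
  rw [← Finset.sum_erase_add _ _ kn] at u1 v1 v2 w3
  rw [Function.update_self, Finset.sum_congr rfl fun j hj => by
    rw [Function.update_of_ne (Finset.ne_of_mem_erase hj)]] at v2
  refine ⟨w k, w1 k, num hε u1 v1 v2 (d := ∑ j ∈ (Finset.range (max n (k + 1))).erase k,
    (1 / 2 * (u (w j) + v (w j))) ^ 2) ?_ (by nlinarith) s2⟩
  rw [← Finset.sum_add_distrib, Finset.sum_div]
  exact Finset.sum_le_sum fun j _ => by nlinarith [sq_nonneg (u (w j) - v (w j))]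

end Pool.Agent.H.MP_aafae6
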