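import Pool.Agent.H.MP_aafae6.A

set_option autoImplicit false
open Set Filter Topology

namespace Pool.Agent.H.MP_aafae6

open Pool.Agent.H.MP_e9bccb Pool.Agent.H.MP_e9afb0 Pool.Agent.H.MP_1b39b5

theorem spc {Γ I : Type} (w : Γ → I → ℝ) (hw : ∀ γ i, |w γ i| ≤ 1) :
    ∃ (X : Type) (_ : NormedAddCommGroup X) (_ : NormedSpace ℝ X) (_ : CompleteSpace X)
      (e : Γ → X) (φ : I → X →L[ℝ] ℝ), Dense (Submodule.span ℝ (range e) : Set X) ∧
      (∀ i x, |φ i x| ≤ ‖x‖) ∧ (∀ i γ, φ i (e γ) = w γ i) ∧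
      ∀ x r, 0 ≤ r → (∀ i, |φ i x| ≤ r) → ‖x‖ ≤ r := by
  let e : Γ → lp (fun _ : I => ℝ) ⊤ := fun γ => ⟨w γ, memℓp_infty ⟨1, forall_mem_range.2 (hw γ)⟩⟩
  let W := (Submodule.span ℝ (range e)).topologicalClosure
  have eW : ∀ p, e p ∈ W := fun p =>
    Submodule.le_topologicalClosure _ (Submodule.subset_span ⟨p, rfl⟩)
  have b : ∀ i (x : W), |x.1 i| ≤ ‖x‖ := fun i x => lp.norm_apply_le_norm (by simp) x.1 i
  refine ⟨W, inferInstance, inferInstance, (Submodule.isClosed_topologicalClosure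
    _).completeSpace_coe, fun γ => ⟨e γ, eW γ⟩, fun i => LinearMap.mkContinuous
      ⟨⟨fun x => x.1 i, fun _ _ => rfl⟩, fun _ _ => rfl⟩ 1 fun x => by simpa using b i x,
    Subtype.dense_iff.2 (closure_mono ?_), b, fun _ _ => rfl,
    fun x r r0 h => lp.norm_le_of_forall_le r0 h⟩
  refine le_trans (Submodule.span_le.2 ?_) (le_of_eq (Submodule.map_coe W.subtype _))
  rintro _ ⟨p, rfl⟩
  exact ⟨_, Submodule.subset_span ⟨p, rfl⟩, rfl⟩

theorem hump {B : ℕ → Set ℕ} {K : ℕ} (h : ∀ n, ∀ s : Finset ℕ, ↑s ⊆ B n → s.card ≤ K) :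
    ∃ l, ∀ N k, ∃ t : Finset ℕ, t.card = k ∧ (∀ n ∈ t, N ≤ n) ∧
      ∀ j, l ≤ j → ∀ n ∈ t, ∀ m ∈ t, j ∈ B n → j ∈ B m → n = m := by
  have f : ∀ n, (B n).Finite := fun n => by_contra fun k =>
    let ⟨s, s1, s2⟩ := Set.Infinite.exists_subset_card_eq k (K + 1)
    (h n s s1).not_gt (by omega)
  obtain ⟨l, hl⟩ := Set.Finite.bddAbove (s := {j | ∀ᶠ n in hyperfilter ℕ, j ∈ B n})
    (by_contra fun k => by
      obtain ⟨s, s1, s2⟩ := Set.Infinite.exists_subset_card_eq k (K + 1)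
      obtain ⟨n, hn⟩ := ((eventually_all_finset s).2 s1).exists
      exact (h n s hn).not_gt (by omega))
  refine ⟨l + 1, fun N k => ?_⟩
  induction k with
  | zero => exact ⟨∅, rfl, by simp, by simp⟩
  | succ k ih =>
    obtain ⟨t, t1, t2, t3⟩ := ih
    obtain ⟨n, n1, n2, n3⟩ := (((eventually_all_finset t).2 fun m _ => (eventually_all_finite
      (f m)).2 fun j _ => show ∀ᶠ n in hyperfilter ℕ, l + 1 ≤ j → j ∉ B n from by
        by_cases e : l + 1 ≤ j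
        · exact (Ultrafilter.eventually_not.2 fun k => by
            have := hl k
            omega).mono fun _ a _ => a
        · exact .of_forall fun _ a => (e a).elim).and (Eventually.and
      (Nat.hyperfilter_le_atTop (eventually_ge_atTop N))
      (hyperfilter_le_cofinite t.eventually_cofinite_notMem))).exists
    refine ⟨insert n t, by rw [Finset.card_insert_of_notMem n3, t1], by simpa using ⟨n2, t2⟩,
      fun j hj a ha b hb c d => ?_⟩
    rcases Finset.mem_insert.1 ha with p | p <;> rcases Finset.mem_insert.1 hb with q | q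
    exacts [p.trans q.symm, (n1 b q j d hj (p ▸ c)).elim, (n1 a p j c hj (q ▸ d)).elim,
      t3 j hj a p b q c d]

def An (a : ℕ → ℕ) (j : ℕ) (b : ℕ → ℕ) : Prop := (∀ i < j, b i = a i) ∧ b j ≠ a j

theorem an {a b : ℕ → ℕ} (h : b ≠ a) {l : ℕ} (k : ∀ i < l, b i = a i) : ∃ j, l ≤ j ∧ An a j b := by
  have := Function.ne_iff.1 h
  exact ⟨Nat.find this, not_lt.1 fun e => Nat.find_spec this (k _ e),
    fun i e => not_not.1 (Nat.find_min this e), Nat.find_spec this⟩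

variable {X : Type} [NormedAddCommGroup X] [NormedSpace ℝ X] {e : (ℕ → ℕ) → X}
  (hk : ∀ (a : ℕ → ℕ) (f : X →L[ℝ] ℝ) (s : Finset ℕ) (b : ℕ → ℕ → ℕ), (∀ j ∈ s, An a j (b j)) →
    ∑ j ∈ s, |f (e (b j))| ≤ 2 * ‖f‖)

include hk

theorem crd {f : X →L[ℝ] ℝ} {M ε : ℝ} (hf : ‖f‖ ≤ M) (hε : 0 < ε) (a : ℕ → ℕ) (s : Finset ℕ)
    (hs : ↑s ⊆ {j | ∃ b, An a j b ∧ ε ≤ |f (e b)|}) : s.card ≤ ⌈2 * M / ε⌉₊ := by
  choose! b b1 b2 using hs
  have := (Finset.card_nsmul_le_sum s _ _ b2).trans (hk a f s b b1)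
  rw [nsmul_eq_mul] at this
  exact Nat.cast_le.1 (((le_div_iff₀ hε).2 (by linarith)).trans (Nat.le_ceil _))

theorem co (e1 : ∀ a, ‖e a‖ ≤ 1) {S : ℝ → Set (X →L[ℝ] ℝ)} (s1 : ∀ η, Convex ℝ (S η))
    (s2 : Monotone S) (s3 : ∀ η, ∀ f ∈ S η, ‖f‖ ≤ 1) (a : ℕ → ℕ)
    (s4 : ∀ l, ∀ ε > 0, ∃ η > 0, ∀ u ∈ S η, ∀ v ∈ S η, ∃ b, (∀ i < l, b i = a i) ∧
      |v (e a)| - ε < |u (e b)|) {ε : ℝ} (hε : 0 < ε) :
    ∃ η > 0, ∀ u ∈ S η, ∀ v ∈ S η, |u (e a) - v (e a)| < ε := by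
  classical
  by_contra k
  push Not at k
  have : ∀ n : ℕ, ∃ m ∈ S (1 / ((n : ℝ) + 1)), ∃ v ∈ S (1 / ((n : ℝ) + 1)),
      |m (e a)| + ε / 2 ≤ |v (e a)| := fun n => by
    obtain ⟨u, u1, v, v1, h⟩ := k _ (Nat.one_div_pos_of_nat (n := n))
    refine ⟨_, s1 _ u1 v1 one_half_pos.le one_half_pos.le (add_halves 1), ?_⟩
    simp only [_root_.add_apply, _root_.smul_apply, smul_eq_mul]
    rcases le_total |u (e a)| |v (e a)| with c | c
    · refine ⟨v, v1, ?_⟩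
      cases abs_cases (u (e a)) <;> cases abs_cases (v (e a)) <;>
        cases abs_cases (u (e a) - v (e a)) <;>
        cases abs_cases (1 / 2 * u (e a) + 1 / 2 * v (e a)) <;> linarith
    · refine ⟨u, u1, ?_⟩
      cases abs_cases (u (e a)) <;> cases abs_cases (v (e a)) <;>
        cases abs_cases (u (e a) - v (e a)) <;>
        cases abs_cases (1 / 2 * u (e a) + 1 / 2 * v (e a)) <;> linarith
  choose m m1 v v1 h using this
  obtain ⟨l, hl⟩ := hump fun n => crd hk (s3 _ _ (m1 n)) (show 0 < ε / 8 by positivity) a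
  obtain ⟨η, η0, hη⟩ := s4 l (ε / 4) (by positivity)
  obtain ⟨N, hN⟩ := exists_nat_one_div_lt η0
  obtain ⟨k, hk'⟩ := exists_nat_one_div_lt (show 0 < ε / 8 by positivity)
  obtain ⟨t, t1, t2, t3⟩ := hl N (k + 1)
  have s5 : ∀ n ∈ t, S (1 / ((n : ℝ) + 1)) ⊆ S η := fun n hn =>
    s2 ((Nat.one_div_le_one_div (t2 n hn)).trans hN.le)
  obtain ⟨n, n1, n2⟩ := t.exists_max_image (fun n => |m n (e a)|) (Finset.card_pos.1 (by omega))
  obtain ⟨b, b1, b2⟩ := hη _ ((s1 η).sum_mem (t := t) (w := fun _ => 1 / ((k : ℝ) + 1))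
    (fun _ _ => by positivity) (by simp [t1]; field_simp) fun n hn => s5 n hn (m1 n)) _
    (s5 n n1 (v1 n))
  simp only [_root_.sum_apply, _root_.smul_apply, smul_eq_mul, ← Finset.mul_sum] at b2
  rw [abs_mul, abs_of_pos (a := 1 / ((k : ℝ) + 1)) Nat.one_div_pos_of_nat] at b2
  have b3 := b2.trans_le (mul_le_mul_of_nonneg_left (Finset.abs_sum_le_sum_abs _ _)
    Nat.one_div_pos_of_nat.le)
  have h := h n
  have p : 1 / ((k : ℝ) + 1) * (k + 1) = 1 := by field_simp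
  have p0 : 0 < 1 / ((k : ℝ) + 1) := Nat.one_div_pos_of_nat
  by_cases c : b = a
  · have := Finset.sum_le_card_nsmul t _ _ n2
    rw [t1, nsmul_eq_mul, Nat.cast_succ] at this
    rw [c] at b3
    have := mul_le_mul_of_nonneg_left this p0.le
    rw [← mul_assoc, p] at this
    linarith
  obtain ⟨j, j1, j2⟩ := an c b1
  have := Finset.sum_le_sum (s := t) (f := fun n => |m n (e b)|)
    (g := fun n => ε / 8 + if ε / 8 ≤ |m n (e b)| then 1 else 0) fun n _ => by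
      split_ifs with d
      · linarith [((m n).le_opNorm (e b)).trans (mul_le_one₀ (s3 _ _ (m1 n)) (norm_nonneg _) (e1 b)),
          Real.norm_eq_abs (m n (e b))]
      · linarith
  rw [Finset.sum_add_distrib, Finset.sum_boole, Finset.sum_const, t1, nsmul_eq_mul,
    Nat.cast_succ] at this
  have d : ((t.filter fun n => ε / 8 ≤ |m n (e b)|).card : ℝ) ≤ 1 := by
    exact_mod_cast Finset.card_le_one.2 fun x hx y hy => t3 j j1 x (Finset.mem_filter.1 hx).1 y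
      (Finset.mem_filter.1 hy).1 ⟨b, j2, (Finset.mem_filter.1 hx).2⟩
      ⟨b, j2, (Finset.mem_filter.1 hy).2⟩
  have := mul_le_mul_of_nonneg_left (this.trans (add_le_add le_rfl d)) p0.le
  rw [mul_add, ← mul_assoc, p] at this
  linarith [abs_nonneg (m n (e a))]

theorem cs (f : X →L[ℝ] ℝ) : {a | f (e a) ≠ 0}.Countable := cz fun n => by
  have : ∀ a, ∃ l, ∀ b, b ≠ a → (∀ i < l, b i = a i) → |f (e b)| < 1 / ((n : ℝ) + 1) := fun a => by
    obtain ⟨l, hl⟩ := Set.Finite.bddAbove (s := {j | ∃ b, An a j b ∧ 1 / ((n : ℝ) + 1) ≤ |f (e b)|})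
      (by_contra fun k =>
        let ⟨s, s1, s2⟩ := Set.Infinite.exists_subset_card_eq k _
        (crd hk le_rfl Nat.one_div_pos_of_nat a s s1).not_gt (s2 ▸ Nat.lt_succ_self _))
    refine ⟨l + 1, fun b h k => not_le.1 fun c => ?_⟩
    obtain ⟨j, j1, j2⟩ := an h k
    have := hl ⟨b, j2, c⟩
    omega
  choose l hl using this
  refine MapsTo.countable_of_injOn (f := fun a => (⟨l a, fun i => a i⟩ : Σ k, Fin k → ℕ))
    (mapsTo_univ _ _) (fun a ha b hb h => by_contra fun c => ?_) countable_univ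
  obtain ⟨h1, h2⟩ := Sigma.mk.inj_iff.1 h
  refine (hl b a c fun i hi => ?_).not_ge ha
  exact (Fin.heq_fun_iff h1).1 h2 ⟨i, h1 ▸ hi⟩

end Pool.Agent.H.MP_aafae6
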