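import Pool.Agent.H.MP_aafae6.B

set_option autoImplicit false
open Set Filter Topology

namespace Pool.Agent.H.MP_aafae6

open Pool.Agent.H.MP_e9bccb Pool.Agent.H.MP_e9afb0 Pool.Agent.H.MP_1b39b5

variable {X Z : Type} [NormedAddCommGroup X] [NormedSpace ℝ X] [NormedAddCommGroup Z]
  [NormedSpace ℝ Z]

theorem den {K : Set X} (hK : Dense (Submodule.span ℝ K : Set X)) {S : ℝ → Set (X →L[ℝ] ℝ)}
    (s2 : Monotone S) (s3 : ∀ η, ∀ f ∈ S η, ‖f‖ ≤ 1)
    (h : ∀ x ∈ K, ∀ ε > 0, ∃ η > 0, ∀ u ∈ S η, ∀ v ∈ S η, |u x - v x| < ε) (x : X) :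
    ∀ ε > 0, ∃ η > 0, ∀ u ∈ S η, ∀ v ∈ S η, |u x - v x| < ε := by
  have k : ∀ x ∈ Submodule.span ℝ K, ∀ ε > 0, ∃ η > 0, ∀ u ∈ S η, ∀ v ∈ S η, |u x - v x| < ε := by
    intro x hx
    induction hx using Submodule.span_induction with
    | mem x a => exact h x a
    | zero => exact fun ε a => ⟨1, one_pos, fun u _ v _ => by simpa using a⟩
    | add x y _ _ a b =>
      intro ε h0
      obtain ⟨η, a1, a2⟩ := a _ (half_pos h0)
      obtain ⟨θ, b1, b2⟩ := b _ (half_pos h0)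
      refine ⟨min η θ, lt_min a1 b1, fun u hu v hv => ?_⟩
      have c := abs_lt.1 (a2 u (s2 (min_le_left _ _) hu) v (s2 (min_le_left _ _) hv))
      have d := abs_lt.1 (b2 u (s2 (min_le_right _ _) hu) v (s2 (min_le_right _ _) hv))
      rw [map_add, map_add, abs_lt]
      constructor <;> linarith [c.1, c.2, d.1, d.2]
    | smul c x _ a =>
      intro ε h0
      obtain ⟨η, a1, a2⟩ := a (ε / (|c| + 1)) (by positivity)
      refine ⟨η, a1, fun u hu v hv => ?_⟩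
      have d := (lt_div_iff₀ (by positivity)).1 (a2 u hu v hv)
      rw [map_smul, map_smul, smul_eq_mul, smul_eq_mul, ← mul_sub, abs_mul]
      nlinarith [abs_nonneg (u x - v x)]
  intro ε h0
  obtain ⟨y, y1, y2⟩ := Metric.mem_closure_iff.1 (hK x) (ε / 3) (by positivity)
  obtain ⟨η, a1, a2⟩ := k y y1 (ε / 3) (by positivity)
  refine ⟨η, a1, fun u hu v hv => ?_⟩
  have b : ∀ u ∈ S η, |u x - u y| < ε / 3 := fun u hu => by
    rw [← map_sub]
    exact ((u.le_opNorm _).trans (mul_le_of_le_one_left (norm_nonneg _) (s3 _ u hu))).trans_lt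
      (dist_eq_norm x y ▸ y2)
  have c := abs_lt.1 (a2 u hu v hv)
  have d := abs_lt.1 (b u hu)
  have e := abs_lt.1 (b v hv)
  rw [abs_lt]
  constructor <;> linarith [c.1, c.2, d.1, d.2, e.1, e.2]

theorem far2 {K : Set Z} (k1 : IsCompact (toWeakSpace ℝ Z '' K))
    (k2 : Dense (Submodule.span ℝ K : Set Z)) (T : X →L[ℝ] Z) {c : ℝ} (c0 : 0 < c)
    (hT : ∀ x, c * ‖x‖ ≤ ‖T x‖) {Γ : Type} (e : Γ → X)
    (he : ∀ f : X →L[ℝ] ℝ, {a | f (e a) ≠ 0}.Countable) {δ : ℝ} (δ0 : 0 < δ) :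
    ∃ N : List ℕ → Set Γ, (∀ γ, ∃ n, γ ∈ N n) ∧ ∀ f : X →L[ℝ] ℝ, (∀ x, |f x| ≤ ‖x‖) →
      ∀ n, {γ ∈ N n | δ ≤ |f (e γ)|}.Finite := by
  obtain ⟨Δ, h, h1, -, h2⟩ := al (X := KK Z) (B := fun _ => (fun z k => k.1 z) '' K) (fun _ => by
      have := k1.image (f := fun z (k : KK Z) => k.1 ((toWeakSpace ℝ Z).symm z)) (continuous_pi
        fun k => WeakBilin.eval_continuous (topDualPairing ℝ Z).flip (WeakDual.toStrongDual k.1))
      rwa [image_image] at this) (fun _ => forall_mem_image.2 fun z _ => cont z)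
    fun x y k => Subtype.ext (ContinuousLinearMap.ext_on k2 fun z hz => k 0 _ ⟨z, hz, rfl⟩)
  obtain ⟨N, n1, n2⟩ := far h1.continuous h1.injective h2 (π := fun (k : KK Z) γ => k.1 (T (e γ)))
    (continuous_pi fun _ => cont _) (fun k => he ((WeakDual.toStrongDual k.1).comp T))
    (mul_pos c0 δ0)
  refine ⟨N, n1, fun f hf n => ?_⟩
  have i : Function.Injective T := (injective_iff_map_eq_zero T).2 fun x hx => by
    have := hT x
    rw [hx, norm_zero] at this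
    exact norm_le_zero_iff.1 (nonpos_of_mul_nonpos_right this c0)
  obtain ⟨g, g1, g2⟩ := Module.Dual.exists_continuous_extension_of_le_seminorm_real T.range
    ((c • f.toLinearMap).comp (LinearEquiv.ofInjective T.toLinearMap i).symm.toLinearMap)
    (p := normSeminorm ℝ Z) continuous_norm fun z => by
      obtain ⟨x, rfl⟩ := (LinearEquiv.ofInjective T.toLinearMap i).surjective z
      simpa using (mul_le_mul_of_nonneg_left ((le_abs_self _).trans (hf x)) c0.le).trans (hT x)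
  refine (n2 ⟨StrongDual.toWeakDual g, g2⟩ n).subset fun γ hγ => ⟨hγ.1, ?_⟩
  have := g1 (LinearEquiv.ofInjective T.toLinearMap i (e γ))
  have : g (T (e γ)) = c * f (e γ) := by simpa using this
  show _ ≤ |g _|
  rw [this, abs_mul, abs_of_pos c0]
  exact mul_le_mul_of_nonneg_left hγ.2 c0.le

theorem dia (N : ℕ → Set (ℕ → ℕ)) (h : ∀ γ, ∃ n, γ ∈ N n) : ∃ (n : ℕ) (a : ℕ → ℕ),
    ∀ i, ∃ γ ∈ N n, (∀ j < n, γ j = a j) ∧ γ n = i := by
  by_contra k
  push Not at k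
  choose i hi using k
  let a : ℕ → ℕ → ℕ := fun n => Nat.rec 0 (fun n a => Function.update a n (i n a)) n
  have a1 : ∀ n, a (n + 1) = Function.update (a n) n (i n (a n)) := fun _ => rfl
  have a2 : ∀ n, ∀ j < n, a (j + 1) j = a n j := fun n => by
    induction n with
    | zero => simp
    | succ n ih =>
      intro j hj
      rcases (Nat.lt_succ_iff.1 hj).eq_or_lt with rfl | e
      · rfl
      · rw [a1 n, Function.update_of_ne e.ne, ih j e]
  obtain ⟨n, hn⟩ := h fun j => a (j + 1) j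
  exact hi n (a n) _ hn (a2 n) (by rw [a1, Function.update_self])

theorem tal : ∃ (X : Type) (_ : NormedAddCommGroup X) (_ : NormedSpace ℝ X) (_ : CompleteSpace X)
    (e : (ℕ → ℕ) → X), Dense (Submodule.span ℝ (range e) : Set X) ∧ (∀ a, ‖e a‖ ≤ 1) ∧
    (∀ (a : ℕ → ℕ) (f : X →L[ℝ] ℝ) (s : Finset ℕ) (b : ℕ → ℕ → ℕ), (∀ j ∈ s, An a j (b j)) →
      ∑ j ∈ s, |f (e (b j))| ≤ 2 * ‖f‖) ∧
    ∀ n (A : Set (ℕ → ℕ)), (∀ a ∈ A, ∀ b ∈ A, a ≠ b → An a n b) →
      ∃ f : X →L[ℝ] ℝ, (∀ x, |f x| ≤ ‖x‖) ∧ ∀ a ∈ A, f (e a) = 1 := by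
  classical
  obtain ⟨X, _, _, _, e, φ, h1, h2, h3, h4⟩ := spc (fun (γ : ℕ → ℕ)
    (i : {p : ℕ × Set (ℕ → ℕ) // ∀ a ∈ p.2, ∀ b ∈ p.2, a ≠ b → An a p.1 b}) =>
      if γ ∈ i.1.2 then 1 else 0) fun γ i => by split_ifs <;> simp
  refine ⟨X, _, _, inferInstance, e, h1, fun a => h4 _ _ zero_le_one fun i => ?_,
    fun a f s b hb => ?_, fun n A hA => ⟨φ ⟨(n, A), hA⟩, h2 _, fun a ha => by simp [h3, ha]⟩⟩
  · rw [h3]
    split_ifs <;> simp
  have := (le_abs_self _).trans (f.le_of_opNorm_le_of_le le_rfl (h4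
    (∑ j ∈ s, (SignType.sign (f (e (b j))) : ℝ) • e (b j)) 2 zero_le_two fun ⟨⟨n, A⟩, hA⟩ => ?_))
  · simp only [map_sum, map_smul, smul_eq_mul, sign_mul_self] at this
    linarith
  simp only [map_sum, map_smul, smul_eq_mul, h3]
  refine (Finset.abs_sum_le_sum_abs _ _).trans ((Finset.sum_le_sum
    (g := fun j => if b j ∈ A then 1 else 0) fun j _ => ?_).trans ?_)
  · split_ifs
    · rcases SignType.trichotomy (SignType.sign (f (e (b j)))) with h | h | h <;> simp [h]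
    · simp
  rw [Finset.sum_boole]
  have k : ∀ i ∈ (s.filter fun j => b j ∈ A).erase n, ∀ j ∈ (s.filter fun j => b j ∈ A).erase n,
      ¬ i < j := fun i hi j hj l => by
    simp only [Finset.mem_erase, Finset.mem_filter] at hi hj
    have c1 := hb i hi.2.1
    have c2 := hb j hj.2.1
    have c3 : b j i ≠ b i i := fun e => c1.2 (e.symm.trans (c2.1 i l))
    have c4 := hA _ hi.2.2 _ hj.2.2 fun e => c3 (by rw [e])
    rcases lt_or_gt_of_ne hi.1 with d | d
    · exact c3 (c4.1 i d)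
    · exact c4.2 ((c2.1 n (d.trans l)).trans (c1.1 n d).symm)
  have k1 := Finset.card_le_one.2 fun i hi j hj =>
    le_antisymm (not_lt.1 (k j hj i hi)) (not_lt.1 (k i hi j hj))
  have k2 := Finset.pred_card_le_card_erase (s := s.filter fun j => b j ∈ A) (a := n)
  exact_mod_cast (show (s.filter fun j => b j ∈ A).card ≤ 2 by omega)

end Pool.Agent.H.MP_aafae6
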